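import Pool.Agent.TH282.RE.Final1

/-!
# Rigid maximal Cohen-Macaulay modules of bounded multiplicity, bounded annihilator of `Ext^1(M, -)`
-/

set_option autoImplicit false

namespace Pool.Agent.Results.MP_d7d607_ag.RigidBoundedAnnihilator

universe u v

/-- Let `R` be a Noetherian local ring which is an algebra over a field `k` with residue field finite over `k`
(for instance any complete local ring containing a field).  For all `N` and `e` there are only finitely many
isomorphism classes of maximal Cohen-Macaulay modules `M` with `Ext^1(M, M) = 0`, multiplicity at most `N`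
and `𝔪 ^ e · Ext^1_R(M, -) = 0` (for `r` in `𝔪 ^ e`, the pullback along `r : M → M` of every surjection onto
`M` splits).  There is no hypothesis on the singularities, the dimension or the characteristic of `R`. -/
theorem result :
    ∀ (k : Type v) [Field k] (R : Type u) [CommRing R] [IsLocalRing R] [IsNoetherianRing R]
      [Algebra k R] [Module.Finite k (IsLocalRing.ResidueField R)],
      ∀ N e : ℕ,
        ∃ (n : ℕ) (F : Fin n → ModuleCat.{u} R),
          ∀ (M : Type u) [AddCommGroup M] [Module R M],
            Module.Finite R M →
            (∃ rs : List R,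
                (∀ r ∈ rs, r ∈ IsLocalRing.maximalIdeal R) ∧
                RingTheory.Sequence.IsRegular M rs ∧
                ((rs.length : WithBot ℕ∞) = ringKrullDim R) ∧
                ∃ e : ℝ, e ≤ (N : ℝ) ∧
                  Filter.Tendsto
                    (fun n : ℕ =>
                      ((rs.length).factorial : ℝ) *
                        ((Module.length R
                            (M ⧸ ((IsLocalRing.maximalIdeal R ^ n) •
                              (⊤ : Submodule R M)))).toNat : ℝ) /
                        ((n : ℝ) ^ rs.length))
                    Filter.atTop (nhds e)) →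
            (∀ (E : Type u) [AddCommGroup E] [Module R E]
                (f : M →ₗ[R] E) (g : E →ₗ[R] M),
                Function.Injective f → Function.Surjective g →
                LinearMap.range f = LinearMap.ker g →
                ∃ s : M →ₗ[R] E, g ∘ₗ s = LinearMap.id) →
            (∀ r ∈ IsLocalRing.maximalIdeal R ^ e,
              ∀ (E : Type u) [AddCommGroup E] [Module R E] (g : E →ₗ[R] M), Function.Surjective g →
                ∃ s : M →ₗ[R] E, g ∘ₗ s = r • LinearMap.id) →
            ∃ i : Fin n, Nonempty (M ≃ₗ[R] (F i)) := by
  intro k _ R _ _ _ _ _ N e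
  obtain ⟨S, hS, h⟩ := Pool.Agent.TH282.RE.final_mult k (R := R) N e
  obtain ⟨n, f, hf⟩ := hS.fin_embedding
  refine ⟨n, fun i => ModuleCat.of R ((Fin (f i).1 → R) ⧸ (f i).2), ?_⟩
  intro M _ _ hMf hMcm hMr hMe
  obtain ⟨p, hp, hMp⟩ := h M hMf hMcm hMr hMe
  rw [← hf] at hp
  obtain ⟨i, rfl⟩ := hp
  exact ⟨i, hMp⟩

end Pool.Agent.Results.MP_d7d607_ag.RigidBoundedAnnihilator
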