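import Pool.Agent.TH282.RE.Final2

/-!
# Finitely many rigid maximal Cohen-Macaulay modules of bounded multiplicity over isolated singularities, char 0
-/

set_option autoImplicit false

namespace Pool.Agent.Results.MP_d7d607_ag.RigidIsolatedCharZero

universe u

/-- For every complete Noetherian local ring `R` containing the rational numbers whose localizations at the
non-maximal primes are regular (an isolated singularity; `R` need not be a domain, Cohen-Macaulay,
equidimensional or graded), and every `N`, there are only finitely many isomorphism classes of maximal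
Cohen-Macaulay modules `M` with `Ext^1(M, M) = 0` and multiplicity at most `N`. -/
theorem result :
    ∀ (R : Type u) [CommRing R] [IsLocalRing R] [IsNoetherianRing R] [Algebra ℚ R],
      IsAdicComplete (IsLocalRing.maximalIdeal R) R →
      (∀ (P : Ideal R) [P.IsPrime], P ≠ IsLocalRing.maximalIdeal R →
        IsRegularLocalRing (Localization.AtPrime P)) →
      ∀ N : ℕ,
        ∃ (k : ℕ) (F : Fin k → ModuleCat.{u} R),
          ∀ (M : Type u) [AddCommGroup M] [Module R M],
            Module.Finite R M →
            (∃ rs : List R,
                (∀ r ∈ rs, r ∈ IsLocalRing.maximalIdeal R) ∧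
                RingTheory.Sequence.IsRegular M rs ∧
                ((rs.length : WithBot ℕ∞) = ringKrullDim R) ∧
                ∃ e : ℝ, e ≤ (N : ℝ) ∧
                  Filter.Tendsto
                    (fun n : ℕ =>
                      ((rs.length).factorial : ℝ) *
                        ((Module.length R
                            (M ⧸ ((IsLocalRing.maximalIdeal R ^ n) •
                              (⊤ : Submodule R M)))).toNat : ℝ) /
                        ((n : ℝ) ^ rs.length))
                    Filter.atTop (nhds e)) →
            (∀ (E : Type u) [AddCommGroup E] [Module R E]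
                (f : M →ₗ[R] E) (g : E →ₗ[R] M),
                Function.Injective f → Function.Surjective g →
                LinearMap.range f = LinearMap.ker g →
                ∃ s : M →ₗ[R] E, g ∘ₗ s = LinearMap.id) →
            ∃ i : Fin k, Nonempty (M ≃ₗ[R] (F i)) := by
  intro R _ _ _ _ hc hreg N
  obtain ⟨k, _, _, hk⟩ := Pool.Agent.TH282.RE.exists_coeff_algebra hc
  obtain ⟨s, -, -, hd⟩ := Pool.Agent.TH282.RE.exists_sop R
  obtain ⟨e, he⟩ := Pool.Agent.TH282.RE.isol_ann k hc s.card hd hreg
  obtain ⟨S, hS, h⟩ := Pool.Agent.TH282.RE.final_mult k (R := R) N e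
  obtain ⟨n, f, hf⟩ := hS.fin_embedding
  refine ⟨n, fun i => ModuleCat.of R ((Fin (f i).1 → R) ⧸ (f i).2), ?_⟩
  intro M _ _ hMf hMcm hMr
  obtain ⟨p, hp, hMp⟩ := h M hMf hMcm hMr (he M hMf (by
    obtain ⟨rs, hrm, hw, hlen, -⟩ := hMcm
    refine ⟨rs, ?_, hrm, hw⟩
    rw [hd] at hlen
    exact_mod_cast hlen))
  rw [← hf] at hp
  obtain ⟨i, rfl⟩ := hp
  exact ⟨i, hMp⟩

end Pool.Agent.Results.MP_d7d607_ag.RigidIsolatedCharZero
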